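import Pool.Agent.X99.LP.C
import Pool.Agent.Results.MP_12adaf_nt.ShiftedPolynomials

/-!
# Weak approximation for ALL of the varieties `yᵢ² - aᵢ zᵢ² = bᵢ (f(t₁, ..., t_m) + k)` with `k` near `α 2 ^ n`, near `t ^ n`,
# or `k` a denominator of a good rational approximation

From Mathlib: `∀ᵐ x`: for almost all `x` (Lebesgue measure); `Real.exp`, `Real.log`: exponential function and natural
logarithm. From the team's `ShiftedPolynomials` (its definitions are used as they are), for `f ∈ ℤ[t₁, ..., t_m]`, integers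
`a i`, `b i` (`i < r`) and the variety `V_k : yᵢ² - aᵢ zᵢ² = bᵢ (f(t) + k) ≠ 0`: `WA f a b T M k`: weak approximation of
level `M` at the primes of `T` holds for `V_k`: all families of `p`-adic points of `V_k`, `p ∈ T`, with coordinates of
absolute value at most `p ^ M` and `|f(t) + k| ≥ p ^ (-M)`, are at the distance at most `p ^ (-M)` from one rational point
of `V_k`; `RealCond f a b k`: the condition at the real place.
From `Pool/Agent/X99/LP`, for a property `P` of integers:
`Fast κ`: there is `δ > 0` such that `κ n ≥ n ^ δ` for all large `n`;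
`Near w κ P`: for every `U` and all `n ≥ n₀(U)` ALL the integers `k` with `|k - w n| ≤ (κ n) ^ U` have the property `P`;
`Denominators x y θ P` (`x, y, θ ∈ ℝ ^ d`): for every `U` ALL the integers `k`, `|k| ≥ K(U)`, such that for all `i` the number
`k x_i - y_i` is at the distance at most `|k| ^ (-θ_i) (log |k|) ^ U` from an integer, have the property `P`.
-/

set_option autoImplicit false

namespace Pool.Agent.Results.MP_12adaf_nt.DilatesNoExceptions

open Finset Filter MeasureTheory
open Pool.Agent.X99.LP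
open Pool.Agent.Results.MP_12adaf_nt.ShiftedPolynomials (WA RealCond)

/-- For ALL `m`, `r`, all `f ∈ ℤ[t₁, ..., t_m]` of degree at least two, all nonzero integers `a i`, `b i`:
* there is a finite set `T₀` of primes such that for every finite set `T ⊇ T₀` and every `M` the following property of `k`
  satisfies `Q`: if the condition at the real place holds then weak approximation of level `M` at `T` holds for `V_k`;
* if the degree of `f` is odd and all `b i = 1`, then for EVERY finite set `T` and every `M` the following property of `k`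
  satisfies `Q`: weak approximation of level `M` at `T` holds for `V_k` (for `T = ∅`: `V_k` has a rational point). -/
def AllVarieties (Q : (ℤ → Prop) → Prop) : Prop :=
  ∀ (m r : ℕ) (f : MvPolynomial (Fin m) ℤ) (a b : Fin r → ℤ), 2 ≤ f.totalDegree → (∀ i, a i ≠ 0) → (∀ i, b i ≠ 0) →
    (∃ T₀ : Finset Nat.Primes, ∀ T : Finset Nat.Primes, T₀ ⊆ T → ∀ M : ℕ, Q (fun k => RealCond f a b k → WA f a b T M k)) ∧
    (Odd f.totalDegree → (∀ i, b i = 1) → ∀ (T : Finset Nat.Primes) (M : ℕ), Q (fun k => WA f a b T M k))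

/-- the data: `m`, `r`, `f`, `a`, `b`, `T`, `M` -/
abbrev Data : Type :=
  (m : ℕ) × (r : ℕ) × (MvPolynomial (Fin m) ℤ × (Fin r → ℤ) × (Fin r → ℤ) × Finset Nat.Primes × ℕ)

theorem countable_data : Countable Data := by
  have : ∀ m : ℕ, Countable (MvPolynomial (Fin m) ℤ) := fun m => by
    rw [← Cardinal.mk_le_aleph0_iff]
    refine MvPolynomial.cardinalMk_le_max.trans ?_
    rw [max_le_iff, max_le_iff]
    exact ⟨⟨Cardinal.mk_le_aleph0_iff.2 inferInstance, Cardinal.mk_le_aleph0_iff.2 inferInstance⟩, le_refl _⟩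
  exact inferInstance

/-- the properties of `k` -/
def Prp (i : Data × Bool) : ℤ → Prop := fun k =>
  if i.2 then (RealCond i.1.2.2.1 i.1.2.2.2.1 i.1.2.2.2.2.1 k →
      WA i.1.2.2.1 i.1.2.2.2.1 i.1.2.2.2.2.1 i.1.2.2.2.2.2.1 i.1.2.2.2.2.2.2 k)
    else WA i.1.2.2.1 i.1.2.2.2.1 i.1.2.2.2.2.1 i.1.2.2.2.2.2.1 i.1.2.2.2.2.2.2 k

theorem allVarieties_of {Q : (ℤ → Prop) → Prop} (h : ∀ i : Data × Bool, Few (Prp i) → Q (Prp i)) : AllVarieties Q := by
  classical
  intro m r f a b hf ha hb
  constructor
  · obtain ⟨T₀, hT₀⟩ := (ShiftedPolynomials.result f hf a b ha hb).1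
    refine ⟨T₀, fun T hT M => ?_⟩
    have h1 := h (⟨m, r, f, a, b, T, M⟩, true)
    have e : Prp (⟨m, r, f, a, b, T, M⟩, true) = fun k => RealCond f a b k → WA f a b T M k := by
      funext k
      simp [Prp]
    rw [e] at h1
    refine h1 fun U => ?_
    obtain ⟨X₀, hX⟩ := hT₀ T hT M U
    exact ⟨X₀, fun X hXX => le_trans (le_of_eq (by congr!)) (hX X hXX)⟩
  · intro ho hb1 T M
    have h1 := h (⟨m, r, f, a, b, T, M⟩, false)
    have e : Prp (⟨m, r, f, a, b, T, M⟩, false) = fun k => WA f a b T M k := by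
      funext k
      simp [Prp]
    rw [e] at h1
    refine h1 fun U => ?_
    obtain ⟨X₀, hX⟩ := (ShiftedPolynomials.result f hf a b ha hb).2 ho hb1 T M U
    exact ⟨X₀, fun X hXX => le_trans (le_of_eq (by congr!)) (hX X hXX)⟩

/-- **Theorem.** Let `κ` be a sequence with `κ n ≥ n ^ δ` for some `δ > 0` and all large `n` (for example `κ n = n log 2`).
(1) For almost all real `α`, for ALL `m, r, f, a, b`, weak approximation (as in `AllVarieties`) holds for ALL the varieties
`V_k` with `|k - α e ^ (κ n)| ≤ (κ n) ^ U`, `n ≥ n₀`, for every `U`.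
(2) For almost all real `t > 1`, for ALL `m, r, f, a, b`, it holds for ALL the varieties `V_k` with
`|k ∓ t ^ (κ n)| ≤ (κ n) ^ U`, `n ≥ n₀`, for every `U`.
(3) Let `θ, y ∈ ℝ ^ d`, `θ_i > 0`, `θ_1 + ... + θ_d = 1`. For almost all `x ∈ ℝ ^ d`, for ALL `m, r, f, a, b`, it holds for
ALL the varieties `V_k`, `|k|` large, such that `k x_i` is within `|k| ^ (-θ_i) (log |k|) ^ U` of `y_i` modulo `1` for
all `i`, for every `U` (`d = 1`, `y = 0`: for all large denominators `k` of convergents of `x`). -/
theorem result :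
    (∀ κ : ℕ → ℝ, Fast κ → ∀ᵐ α : ℝ, AllVarieties (Near (fun n => α * Real.exp (κ n)) κ)) ∧
    (∀ κ : ℕ → ℝ, Fast κ → ∀ᵐ t : ℝ, 1 < t →
      AllVarieties (Near (fun n => t ^ κ n) κ) ∧ AllVarieties (Near (fun n => -(t ^ κ n)) κ)) ∧
    (∀ (d : ℕ) (θ y : Fin d → ℝ), (∀ i, 0 < θ i) → ∑ i, θ i = 1 →
      ∀ᵐ x : Fin d → ℝ, AllVarieties (Denominators x y θ)) := by
  have := countable_data
  refine ⟨fun κ hκ => ?_, fun κ hκ => ?_, fun d θ y hθ hs => ?_⟩
  · filter_upwards [ae_dilates Prp hκ] with α h
    exact allVarieties_of h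
  · filter_upwards [ae_powers Prp hκ] with t h ht
    exact ⟨allVarieties_of fun i hi => (h ht i hi).1, allVarieties_of fun i hi => (h ht i hi).2⟩
  · filter_upwards [ae_denominators Prp d θ y hθ hs] with x h
    exact allVarieties_of h

end Pool.Agent.Results.MP_12adaf_nt.DilatesNoExceptions
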