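import Pool.Agent.Results.MP_12adaf_nt.RandomCompleteIntersections
import Pool.Agent.X67.GD.Poly

/-!
# Weak approximation for ALL complete intersections near generic dilates, of all Fano types at once

Let `L_k` be real numbers (for example `L_k = k`). There are numbers `g_k` such that for every sequence `v_k ≥ g_k`, ALL
types `(d_1, …, d_s)`, `n` with `d_j ≥ 2`, `d_1 + ⋯ + d_s ≤ n` and `n ≥ 3` (the types of the Fano complete intersections
of dimension at least two in `ℙⁿ`; cubic surfaces and del Pezzo surfaces of degree four are included) and almost all real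
systems `α` of forms of these degrees (given by their coefficients): for every `M`, for all large `k`, ALL the everywhere
locally soluble intersections `f_1 = ⋯ = f_s = 0` in `ℙⁿ` with integral forms `f_j` of degree `d_j` whose coefficients
differ from those of `v_k α` by at most `L_k` satisfy weak approximation to precision `1 / M` at the real place and at all
the primes up to `M`. (No smoothness is assumed.)

In the starting result `RandomCompleteIntersections` this holds for 100% of the smooth complete intersections with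
coefficients bounded by `H`; the exceptions could contain members of each of the cubes. For `L_k → ∞` the cubes contain
systems in all residue classes modulo any given number. Proof: Borel-Cantelli.
-/

set_option autoImplicit false

namespace Pool.Agent.Results.MP_12adaf_nt.GenericDilates

open Filter MeasureTheory Finset
open Pool.Agent.X67.GD (AllNear DensityOne Coef system mons)
open RandomCompleteIntersections (LocallySoluble WeakApproximation)

/-- the types `(s, n, d)` of the Fano complete intersections of dimension at least two -/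
abbrev FanoType : Type :=
  {x : (Σ s : ℕ, ℕ × (Fin s → ℕ)) // 1 ≤ x.1 ∧ (∀ j, 2 ≤ x.2.2 j) ∧ ∑ j, x.2.2 j ≤ x.2.1 ∧ 3 ≤ x.2.1}

theorem weak_mono {s n M m : ℕ} (hM : 1 ≤ M) (hm : M ≤ m) {f : Fin s → MvPolynomial (Fin (n + 1)) ℤ}
    (h : WeakApproximation m f) : WeakApproximation M f := by
  have hM0 : (0 : ℝ) < M := by exact_mod_cast hM
  have hMm : (M : ℝ) ≤ m := by exact_mod_cast hm
  intro z y hz hy hyf
  obtain ⟨x, hx0, hxf, hx1, c, hc, hx2⟩ := h z y hz hy hyf
  refine ⟨x, hx0, hxf, fun p _ hp => ?_, c, hc, fun i => (hx2 i).trans ?_⟩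
  · obtain ⟨c, hc, hx3⟩ := hx1 p (hp.trans hm)
    exact ⟨c, hc, fun i => (hx3 i).trans (div_le_div_of_nonneg_left (norm_nonneg _) hM0 hMm)⟩
  · exact div_le_div_of_nonneg_left (norm_nonneg _) hM0 hMm

theorem density (s n : ℕ) (d : Fin s → ℕ) (hs : 1 ≤ s) (hd : ∀ j, 2 ≤ d j) (hdn : ∑ j, d j ≤ n) (hn : 3 ≤ n)
    (M : ℕ) : DensityOne (fun w : Coef (fun j => mons n (d j)) → ℤ =>
      LocallySoluble (system (fun j => mons n (d j)) w) →
        WeakApproximation (M + 1) (system (fun j => mons n (d j)) w)) := by
  obtain ⟨e, he⟩ : ∃ e : Fin s → ℕ, ∀ j, d j = e j + 2 :=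
    ⟨fun j => d j - 2, fun j => by have := hd j; dsimp only; omega⟩
  obtain rfl : d = fun j => e j + 2 := funext he
  obtain ⟨h1, h2⟩ := Pool.Agent.Y716.D.dims hs hn hdn
  obtain ⟨m, hm, h3⟩ := Pool.Agent.Y716.D.wa_all (Fin (n + 1)) hs h1 e h2
  refine Pool.Agent.X67.GD.densityOne_of_ratio (system fun j => mons n (e j + 2)) (Pool.Agent.X67.GD.system_injective _)
    (fun H => {f : Fin s → MvPolynomial (Fin (n + 1)) ℤ | ∀ j, (f j).IsHomogeneous (e j + 2) ∧
      ∀ m, |(f j).coeff m| ≤ (H : ℤ)}) (fun H => Pool.Agent.X67.GD.systems_eq _ H)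
    (fun H f => LocallySoluble f ∧ WeakApproximation (m H) f)
    (WeakApproximation (M + 1)) LocallySoluble (fun H f _ hf => hf.1) ?_ h3
  filter_upwards [tendsto_atTop.mp hm (M + 1)] with H hH f _ hf
  exact weak_mono (by omega) hH hf.2

/-- **Theorem.** Let `L_k` be real numbers. There are numbers `g_k` such that for every sequence `v` with `v_k ≥ g_k` for
all large `k`, ALL types `(s, n, d)` with `s ≥ 1`, `d_j ≥ 2`, `d_1 + ⋯ + d_s ≤ n`, `n ≥ 3` and almost all real
coefficient vectors `α` of systems of this type: for every `M ≥ 1`, for all large `k`, for ALL integral systems `f` of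
this type whose coefficients differ from those of `v_k α` by at most `L_k`, the intersection `f = 0` in `ℙⁿ` satisfies
weak approximation to precision `1 / M` at the real place and at the primes up to `M` if it has points over the real
numbers and over all the `p`-adic fields. -/
theorem result (L : ℕ → ℝ) : ∃ g : ℕ → ℝ, ∀ v : ℕ → ℝ, (∀ᶠ k in atTop, g k ≤ v k) →
    ∀ (s n : ℕ) (d : Fin s → ℕ), 1 ≤ s → (∀ j, 2 ≤ d j) → ∑ j, d j ≤ n → 3 ≤ n →
      ∀ᵐ α : Coef (fun j => mons n (d j)) → ℝ, ∀ M : ℕ, 1 ≤ M →
        AllNear (fun w => LocallySoluble (system (fun j => mons n (d j)) w) →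
          WeakApproximation M (system (fun j => mons n (d j)) w)) L v α := by
  obtain ⟨g, hg⟩ := Pool.Agent.X67.GD.exists_gauge_all (ι := FanoType × ℕ)
    (fun x => Coef (fun j => mons x.1.1.2.1 (x.1.1.2.2 j)))
    (fun x w => LocallySoluble (system (fun j => mons x.1.1.2.1 (x.1.1.2.2 j)) w) →
      WeakApproximation (x.2 + 1) (system (fun j => mons x.1.1.2.1 (x.1.1.2.2 j)) w))
    (fun x => density x.1.1.1 x.1.1.2.1 x.1.1.2.2 x.1.2.1 x.1.2.2.1 x.1.2.2.2.1 x.1.2.2.2.2 x.2) L
  refine ⟨g, fun v hv s n d hs hd hdn hn => ?_⟩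
  have h1 : ∀ M : ℕ, ∀ᵐ α : Coef (fun j => mons n (d j)) → ℝ,
      AllNear (fun w => LocallySoluble (system (fun j => mons n (d j)) w) →
          WeakApproximation (M + 1) (system (fun j => mons n (d j)) w)) L v α :=
    fun M => hg v hv (⟨⟨s, n, d⟩, hs, hd, hdn, hn⟩, M)
  filter_upwards [ae_all_iff.2 h1] with α hα M hM
  obtain ⟨M', rfl⟩ : ∃ M', M = M' + 1 := ⟨M - 1, by omega⟩
  exact hα M'

end Pool.Agent.Results.MP_12adaf_nt.GenericDilates
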