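import Pool.Agent.X95T.NB1

/-!
# The closure of the rational points of conic and quadric bundles of degree six is open

Let `K` be a field of characteristic zero, for example a number field, `a_1, …, a_m ∈ K`, `m ≥ 2`, all
different from zero, and let `f ∈ K[z_1, …, z_n]` be any polynomial which has degree at most six in
each variable (its total degree can be up to `6 n`; there is no condition on the singularities of
`f = 0`). Let `V` be the variety

`∑ a_i w_i² = f(z_1, …, z_n)`,

a bundle of affine quadrics over the affine space, conics for `m = 2` (for `m = 2`, `n = 1` and `f`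
separable of degree six a smooth compactification is a conic bundle over the line with six
degenerate fibres). Its smooth compactifications are rationally connected. Let `S` be any finite set
of places of `K` (pairwise inequivalent completions `K → L_v`, archimedean or not).

**Theorem.** There is an open set `U` of the product of the `L_v^n`, `v ∈ S`, such that a point
`T = (T_v)` of the product of the `V(L_v)` with `f(T_v) ≠ 0` for all `v` belongs to the closure of
`V(K)` if and only if its image in the product of the `L_v^n` belongs to `U`.

So the closure of `V(K)` is, outside of `f = 0`, open in the product of the `V(L_v)` and a union of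
fibres, as it is the case for the Brauer-Manin set. For a rational point `P` with `f(P) ≠ 0` this
means that all points of the product of the `V(L_v)` which are close to `P` (and even all those whose
image in the product of the `L_v^n` is close to the image of `P`) are limits of rational points.

Proof. (i) Let `P = (w₀, z₀)` be a rational point with `f(z₀) ≠ 0`. For a direction `v` parallel to a
coordinate axis, consider the curves `z = z₀ + t v`, `w = w₀ + t w₁ + t² w₂ + t³ w₃`. The equation of
`V` becomes a polynomial of degree six in `t`. Its coefficients at `t`, `t²`, `t³`, `t⁴` vanish if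
`(w₀, w₁)`, `(w₀, w₂)`, `(w₀, w₃)`, `(w₁, w₃)` have certain values, where `( , )` is the bilinear form
of the `a_i`. These are linear equations for `w₁`, `w₂` and `w₃`, which can be solved, as `m ≥ 2`. So
they meet `V` in `P` with multiplicity five and in one more rational point. As the solutions of the
linear equations are given by rational functions of `P` and of parameters in an affine space, the
closure of `V(K)` is stable under the operation which maps `P` to the remaining point, with
parameters in the product of the `L_v`. It is also stable under the reflections of `( , )`, with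
vectors in the product of the `L_v`. (ii) For `v = 0` there are such curves whose remaining point is
different from `P`. So for `v` close to `0` the remaining point has the coordinates `z₀ + t v` with
`t` close to a constant which is not zero, and by the implicit function theorem all points of the
product of the `L_v^n` close to the image of a point of the closure are images of points of the
closure. (iii) The orthogonal group is transitive on the fibres.
-/

set_option autoImplicit false

namespace Pool.Agent.Results.MP_12adaf_nt.SexticConicBundles

open MvPolynomial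

/-- The points of the variety `∑ a_i w_i² = f(z)` over a field `k` with a homomorphism `τ : K → k`.
The coordinate `Sum.inl i` is `w_i`, the coordinate `Sum.inr j` is `z_j`. -/
def OnVariety {K : Type} [Field K] {m n : ℕ} (a : Fin m → K) (f : MvPolynomial (Fin n) K)
    {k : Type} [Field k] (τ : K →+* k) (x : Fin m ⊕ Fin n → k) : Prop :=
  ∑ i, τ (a i) * x (Sum.inl i) ^ 2 = eval₂ τ (fun j => x (Sum.inr j)) f

/-- The rational points, in the product of the sets of points over the completions. -/
def rationalPoints {K S : Type} [Field K] {m n : ℕ} (a : Fin m → K) (f : MvPolynomial (Fin n) K)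
    {L : S → Type} [∀ v, Field (L v)] (σ : ∀ v, K →+* L v) : Set (∀ v, Fin m ⊕ Fin n → L v) :=
  {x | ∃ y : Fin m ⊕ Fin n → K, OnVariety a f (RingHom.id K) y ∧ x = fun v s => σ v (y s)}

lemma on_iff {K : Type} [Field K] {m n : ℕ} {a : Fin m → K} {f : MvPolynomial (Fin n) K}
    {k : Type} [Field k] {τ : K →+* k} {x : Fin m ⊕ Fin n → k} :
    OnVariety a f τ x ↔ Pool.Agent.X95T.SX.On a f τ x := by
  have h1 : ∑ i, τ (a i) * x (Sum.inl i) ^ 2 = Pool.Agent.X95T.SX.B (fun i => τ (a i))
      (fun i => x (Sum.inl i)) (fun i => x (Sum.inl i)) :=
    Finset.sum_congr rfl fun i _ => by ring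
  unfold OnVariety Pool.Agent.X95T.SX.On
  rw [h1]

/-- **The closure of the rational points.** -/
theorem result :
    ∀ (K : Type) [Field K] [CharZero K] (m n : ℕ) (a : Fin m → K) (f : MvPolynomial (Fin n) K),
      2 ≤ m → (∀ i, a i ≠ 0) → (∀ j, f.degreeOf j ≤ 6) →
      -- a finite set of pairwise different places
      ∀ (S : Type) [Finite S] [Nonempty S] (L : S → Type) [∀ v, NontriviallyNormedField (L v)]
        [∀ v, CompleteSpace (L v)] (σ : ∀ v, K →+* L v), (∀ v, DenseRange (σ v)) →
      (∀ v v', v ≠ v' → ∃ x : K, ‖σ v x‖ < 1 ∧ 1 ≤ ‖σ v' x‖) →
      ∃ U : Set (∀ v, Fin n → L v), IsOpen U ∧ ∀ T : ∀ v, Fin m ⊕ Fin n → L v,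
        (∀ v, eval₂ (σ v) (fun j => T v (Sum.inr j)) f ≠ 0) →
        (T ∈ closure (rationalPoints a f σ) ↔
          (∀ v, OnVariety a f (σ v) (T v)) ∧ (fun v j => T v (Sum.inr j)) ∈ U) := by
  intro K _ _ m n a f hm ha hf S _ _ L _ _ σ hσ hne
  have : Nontrivial (Fin m) := Fin.nontrivial_iff_two_le.2 hm
  have hd := Pool.Agent.X95T.SX.dense_diag hσ hne
  have hKP : rationalPoints a f σ = Pool.Agent.X95T.SX.KP a f σ := by
    ext x
    constructor
    · rintro ⟨y, hy, h⟩
      exact ⟨y, on_iff.1 hy, h⟩
    · rintro ⟨y, hy, h⟩
      exact ⟨y, on_iff.2 hy, h⟩
  rw [hKP]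
  refine ⟨_, Pool.Agent.X95T.SX.base hf hd ha, fun T hT => ⟨fun h => ⟨fun v => on_iff.2
    (Pool.Agent.X95T.SX.on_of_mem h v), hT, T, h, rfl⟩, ?_⟩⟩
  rintro ⟨h1, -, y, hy, h2⟩
  exact Pool.Agent.X95T.SX.fibre hd ha hy (fun v => on_iff.1 (h1 v)) hT fun v => congrFun h2 v

end Pool.Agent.Results.MP_12adaf_nt.SexticConicBundles
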