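import Pool.Agent.X20.Tr.Int
import Pool.Agent.Results.MP_12adaf_nt.ShiftedPolynomials

/-!
# Weak approximation for the varieties `yᵢ² - aᵢ zᵢ² = bᵢ (f(t₁, ..., t_m) + k)`, `k = h ± ⌊α n ^ c⌋`

From Mathlib: `dimH E`: the Hausdorff dimension; `⌊x⌋₊`: the integer part; `Finset.Icc 1 N`: the integers from `1` to
`N`. From the team's `ShiftedPolynomials` (its definitions are used as they are), for `f ∈ ℤ[t₁, ..., t_m]`, integers
`a i`, `b i` (`i < r`) and the variety `V_k : yᵢ² - aᵢ zᵢ² = bᵢ (f(t) + k) ≠ 0`: `WA f a b T N k`: weak approximation of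
level `N` at the primes of `T` holds for `V_k`: all families of `p`-adic points of `V_k`, `p ∈ T`, with coordinates of
absolute value at most `p ^ N` and `|f(t) + k| ≥ p ^ (-N)`, are at the distance at most `p ^ (-N)` from one rational point
of `V_k`; `RealCond f a b k`: the condition at the real place.
-/

set_option autoImplicit false

namespace Pool.Agent.Results.MP_12adaf_nt.SparseShiftedPolynomials

open Finset Filter
open Pool.Agent.X20.Tr
open Pool.Agent.Results.MP_12adaf_nt.ShiftedPolynomials (WA RealCond)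

open Classical in
/-- for every `U`, for all large `N` all but at most `N / (log N) ^ U` of the `n ≤ N` have the property
`P (h + s ⌊α n ^ c⌋)` -/
def AlmostAll (c α : ℝ) (h s : ℤ) (P : ℤ → Prop) : Prop :=
  ∀ U : ℕ, ∃ N₀ : ℕ, ∀ N : ℕ, N₀ ≤ N →
    (((Icc 1 N).filter (fun n : ℕ => ¬ P (h + s * ((⌊α * (n : ℝ) ^ c⌋₊ : ℕ) : ℤ)))).card : ℝ) ≤
      N / (Real.log N) ^ U

/-- the data: `m`, `r`, `f`, `a`, `b`, `T`, `M` -/
abbrev Data : Type :=
  (m : ℕ) × (r : ℕ) × (MvPolynomial (Fin m) ℤ × (Fin r → ℤ) × (Fin r → ℤ) × Finset Nat.Primes × ℕ)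

/-- For every real `c > 1` there are `κ > 0` and a set `E` of real numbers of Hausdorff dimension at most `1 - κ`
such that for every real `α > 0` outside `E`, for ALL `m`, `r`, all `f ∈ ℤ[t₁, ..., t_m]` of degree at least two, all
nonzero integers `a i`, `b i` and all integers `h` and both signs `s`, with `k = h + s ⌊α n ^ c⌋`:

* there is a finite set `T₀` of primes such that for every finite set `T ⊇ T₀` and every `M`, for all but `N / (log N) ^ U`
  of the `n ≤ N` (every `U`, `N` large) weak approximation of level `M` at `T` holds for `V_k`, if the condition at the real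
  place is satisfied;
* if the degree of `f` is odd and all `b i = 1`, this holds for EVERY finite set `T` and without the condition at the real
  place. For `T = ∅` it says that `V_k` has a rational point. -/
theorem result (c : ℝ) (hc : 1 < c) : ∃ κ : ℝ, 0 < κ ∧ κ < 1 ∧ ∃ E : Set ℝ, dimH E ≤ ENNReal.ofReal (1 - κ) ∧
    ∀ α : ℝ, 0 < α → α ∉ E → ∀ (m r : ℕ) (f : MvPolynomial (Fin m) ℤ) (a b : Fin r → ℤ),
      2 ≤ f.totalDegree → (∀ i, a i ≠ 0) → (∀ i, b i ≠ 0) →
      (∃ T₀ : Finset Nat.Primes, ∀ T : Finset Nat.Primes, T₀ ⊆ T → ∀ M : ℕ, ∀ h s : ℤ, (s = 1 ∨ s = -1) →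
        AlmostAll c α h s (fun k => RealCond f a b k → WA f a b T M k)) ∧
      (Odd f.totalDegree → (∀ i, b i = 1) → ∀ (T : Finset Nat.Primes) (M : ℕ), ∀ h s : ℤ, (s = 1 ∨ s = -1) →
        AlmostAll c α h s (fun k => WA f a b T M k)) := by
  classical
  obtain ⟨κ, hκ0, hκ1, H⟩ := sparse_all c hc
  have hcm := countable_mvpolys
  have hcount : Countable Data := inferInstance
  obtain ⟨E, hE, hh⟩ := H (Data × Bool) (fun i k => if i.2
    then ¬ (RealCond i.1.2.2.1 i.1.2.2.2.1 i.1.2.2.2.2.1 k →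
      WA i.1.2.2.1 i.1.2.2.2.1 i.1.2.2.2.2.1 i.1.2.2.2.2.2.1 i.1.2.2.2.2.2.2 k)
    else ¬ WA i.1.2.2.1 i.1.2.2.2.1 i.1.2.2.2.2.1 i.1.2.2.2.2.2.1 i.1.2.2.2.2.2.2 k)
  refine ⟨κ, hκ0, hκ1, E, hE, fun α hα hαE m r f a b hf ha hb => ⟨?_, fun ho hb1 T M h s hs => ?_⟩⟩
  · obtain ⟨T₀, hT₀⟩ := (ShiftedPolynomials.result f hf a b ha hb).1
    refine ⟨T₀, fun T hT M h s hs => ?_⟩
    intro U
    obtain ⟨N₀, hN⟩ := hh α hα hαE (⟨m, r, f, a, b, T, M⟩, true) h s hs (fun U => by
      obtain ⟨X₀, hX⟩ := hT₀ T hT M U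
      exact ⟨X₀, fun X hXX => le_trans (le_of_eq (by simp)) (hX X hXX)⟩) U
    exact ⟨N₀, fun N hNN => le_trans (le_of_eq (by simp)) (hN N hNN)⟩
  · have h2 := (ShiftedPolynomials.result f hf a b ha hb).2 ho hb1 T M
    intro U
    obtain ⟨N₀, hN⟩ := hh α hα hαE (⟨m, r, f, a, b, T, M⟩, false) h s hs (fun U => by
      obtain ⟨X₀, hX⟩ := h2 U
      exact ⟨X₀, fun X hXX => le_trans (le_of_eq (by simp)) (hX X hXX)⟩) U
    exact ⟨N₀, fun N hNN => le_trans (le_of_eq (by simp)) (hN N hNN)⟩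

end Pool.Agent.Results.MP_12adaf_nt.SparseShiftedPolynomials
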